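import Pool.Agent.W269.BL.Stm

set_option autoImplicit false

/-! BL-ENUM: consecutive polynomials of the lexicographic enumeration. -/

open Polynomial

namespace Pool.Agent.W691.BL.ENUM

open Pool.Agent.W269.BL

universe u

/-- numbers with the same digits are equal -/
theorem digits_ext {q : ℕ} (hq : 2 ≤ q) : ∀ n k k' : ℕ, k ≤ n → k' ≤ n →
    (∀ i, k / q ^ i % q = k' / q ^ i % q) → k = k' := by
  intro n
  induction n with
  | zero => intro k k' h1 h2 _; omega
  | succ n ih =>
    intro k k' h1 h2 h
    have h0 := h 0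
    rw [pow_zero, Nat.div_one, Nat.div_one] at h0
    have b1 : k / q ≤ n := by
      have : k / q ≤ k / 2 := Nat.div_le_div_left hq (by norm_num)
      omega
    have b2 : k' / q ≤ n := by
      have : k' / q ≤ k' / 2 := Nat.div_le_div_left hq (by norm_num)
      omega
    have h3 : k / q = k' / q := by
      refine ih _ _ b1 b2 fun i => ?_
      have := h (i + 1)
      rw [pow_succ', ← Nat.div_div_eq_div_mul, ← Nat.div_div_eq_div_mul] at this
      exact this
    rw [← Nat.div_add_mod k q, ← Nat.div_add_mod k' q, h3, h0]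

section

variable {K : Type u} [Field K] [Fintype K] (e : Fin (Fintype.card K) ≃ K)
  (he : e ⟨0, Fintype.card_pos⟩ = 0)

/-- the digit -/
noncomputable def dig (k i : ℕ) : K :=
  e ⟨k / Fintype.card K ^ i % Fintype.card K, Nat.mod_lt _ Fintype.card_pos⟩

theorem two_le : 2 ≤ Fintype.card K := Fintype.one_lt_card

theorem dig_congr {k i k' i' : ℕ}
    (h : k / Fintype.card K ^ i % Fintype.card K = k' / Fintype.card K ^ i' % Fintype.card K) :
    dig e k i = dig e k' i' := by
  unfold dig
  congr 1
  exact Fin.ext h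

include he in
theorem dig_zero {k i : ℕ} (h : k < Fintype.card K ^ i) : dig e k i = 0 := by
  rw [← he]
  unfold dig
  congr 1
  refine Fin.ext ?_
  show k / Fintype.card K ^ i % Fintype.card K = 0
  rw [Nat.div_eq_of_lt h, Nat.zero_mod]

include he in
theorem coeff_phi (k i : ℕ) : (phi e k).coeff i = dig e k i := by
  unfold phi
  rw [finset_sum_coeff]
  simp only [coeff_C_mul, coeff_X_pow]
  by_cases hi : i < k
  · rw [Finset.sum_eq_single_of_mem i (Finset.mem_range.2 hi)]
    · rw [if_pos rfl, mul_one]
      rfl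
    · intro b _ hb
      rw [if_neg (fun h => hb h.symm), mul_zero]
  · rw [Finset.sum_eq_zero, dig_zero e he]
    · exact lt_of_le_of_lt (not_lt.1 hi) (Nat.lt_pow_self two_le)
    · intro b hb
      have := Finset.mem_range.1 hb
      rw [if_neg (by omega), mul_zero]

include he in
theorem phi_inj {k k' : ℕ} (h : phi e k = phi e k') : k = k' := by
  refine digits_ext (q := Fintype.card K) two_le (max k k') k k' (le_max_left _ _)
    (le_max_right _ _) fun i => ?_
  have h1 : dig e k i = dig e k' i := by
    rw [← coeff_phi e he, ← coeff_phi e he, h]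
  exact congrArg Fin.val (e.injective h1)

include he in
theorem phi_split (s t j : ℕ) (hj : j < Fintype.card K ^ s) :
    phi e (Fintype.card K ^ s * t + j) = X ^ s * phi e t + phi e j := by
  have hq : 0 < Fintype.card K := Fintype.card_pos
  ext i
  rw [coeff_add, coeff_phi e he, coeff_phi e he, coeff_X_pow_mul']
  by_cases hi : s ≤ i
  · rw [if_pos hi, coeff_phi e he, dig_zero e he (lt_of_lt_of_le hj (Nat.pow_le_pow_right hq hi)),
      add_zero]
    apply dig_congr
    obtain ⟨c, rfl⟩ := Nat.exists_eq_add_of_le hi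
    rw [pow_add, ← Nat.div_div_eq_div_mul, Nat.add_sub_cancel_left,
      Nat.mul_add_div (Nat.pow_pos hq), Nat.div_eq_of_lt hj, add_zero]
  · rw [if_neg hi, zero_add]
    apply dig_congr
    obtain ⟨c, hc⟩ := Nat.exists_eq_add_of_lt (not_le.1 hi)
    have h1 : Fintype.card K ^ s * t + j =
        Fintype.card K ^ i * (Fintype.card K * (Fintype.card K ^ c * t)) + j := by
      rw [hc, pow_succ, pow_add]
      ring
    rw [h1, Nat.mul_add_div (Nat.pow_pos hq), Nat.mul_add_mod]

include he in
theorem phi_digit (x : K) : phi e (e.symm x : ℕ) = C x := by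
  ext i
  rw [coeff_phi e he, coeff_C]
  by_cases hi : i = 0
  · subst hi
    rw [if_pos rfl]
    have h1 : (⟨(e.symm x : ℕ) / Fintype.card K ^ 0 % Fintype.card K,
        Nat.mod_lt _ Fintype.card_pos⟩ : Fin (Fintype.card K)) = e.symm x := by
      refine Fin.ext ?_
      show (e.symm x : ℕ) / Fintype.card K ^ 0 % Fintype.card K = (e.symm x : ℕ)
      rw [pow_zero, Nat.div_one, Nat.mod_eq_of_lt (e.symm x).2]
    unfold dig
    rw [h1, e.apply_symm_apply]
  · rw [if_neg hi]
    apply dig_zero e he
    exact lt_of_lt_of_le (e.symm x).2 (Nat.le_self_pow hi _)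

include he in
theorem phi_surj (N : ℕ) : ∀ F : K[X], F.degree < N → ∃ t, phi e t = F := by
  induction N with
  | zero =>
    intro F hF
    refine ⟨0, ?_⟩
    have : F = 0 := by
      rw [← degree_eq_bot]
      exact Nat.WithBot.lt_zero_iff.1 hF
    rw [this]
    simp [phi]
  | succ N ih =>
    intro F hF
    have h1 : F.divX.degree < N := by
      by_cases h0 : F.divX = 0
      · rw [h0, degree_zero]
        exact WithBot.bot_lt_coe N
      · rw [degree_eq_natDegree h0]
        have hF0 : F ≠ 0 := by
          intro h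
          apply h0
          rw [h, divX_zero]
        rw [degree_eq_natDegree hF0] at hF
        have h2 : F.natDegree < N + 1 := by exact_mod_cast hF
        have h3 : 0 < F.natDegree := by
          by_contra hcon
          apply h0
          rw [eq_C_of_natDegree_eq_zero (by omega : F.natDegree = 0), divX_C]
        have h4 : F.divX.natDegree = F.natDegree - 1 := natDegree_divX_eq_natDegree_tsub_one
        rw [h4]
        exact_mod_cast (by omega : F.natDegree - 1 < N)
    obtain ⟨t, ht⟩ := ih _ h1
    refine ⟨Fintype.card K ^ 1 * t + (e.symm (F.coeff 0) : ℕ), ?_⟩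
    rw [phi_split e he 1 t _ (by rw [pow_one]; exact (e.symm (F.coeff 0)).2), ht,
      phi_digit e he, pow_one]
    exact X_mul_divX_add F

end

theorem main : StmMAIN.{u} → StmENUM.{u} := by
  intro hM K _ _ p _ _ hp e he n ε hε M
  have hq : 0 < Fintype.card K := Fintype.card_pos
  have hns : n < Fintype.card K ^ n := Nat.lt_pow_self two_le
  obtain ⟨r, hr⟩ := hM K p hp n (fun _ => X ^ n) (fun j => phi e (j + 1))
    (fun _ => pow_ne_zero _ X_ne_zero) (by
      intro i j hij h
      apply hij
      have h1 := mul_left_cancel₀ (pow_ne_zero n X_ne_zero) h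
      have h2 := phi_inj e he h1
      exact Fin.ext (by omega)) ε hε
  have h1 := hr (max (p * r) M) 0 (by rw [zero_add]; exact le_max_left _ _)
  rw [pow_zero] at h1
  obtain ⟨F, hF1, hF2, hF3⟩ := Set.nonempty_of_ncard_ne_zero (by omega : {F : K[X] | F.Monic ∧
    F.natDegree = max (p * r) M ∧ ∀ j : Fin n, X ^ n * F + phi e (j + 1) ≠ 0 ∧
      lam (X ^ n * F + phi e (j + 1)) = ε j}.ncard ≠ 0)
  obtain ⟨t, ht⟩ := phi_surj e he (F.natDegree + 1) F (by
    rw [degree_eq_natDegree hF1.ne_zero]
    exact_mod_cast Nat.lt_succ_self _)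
  have h2 : Fintype.card K ^ F.natDegree ≤ t := by
    by_contra hcon
    have h3 := dig_zero e he (not_le.1 hcon)
    rw [← coeff_phi e he, ht, coeff_natDegree, hF1.leadingCoeff] at h3
    exact one_ne_zero h3
  refine ⟨Fintype.card K ^ n * t, ?_, fun j => ?_⟩
  · have h3 : F.natDegree < Fintype.card K ^ F.natDegree := Nat.lt_pow_self two_le
    have h4 : M ≤ F.natDegree := by rw [hF2]; exact le_max_right _ _
    have h5 : t ≤ Fintype.card K ^ n * t := Nat.le_mul_of_pos_left t (Nat.pow_pos hq)
    omega
  · have h3 : Fintype.card K ^ n * t + 1 + (j : ℕ) = Fintype.card K ^ n * t + ((j : ℕ) + 1) := by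
      ring
    rw [h3, phi_split e he n t _ (by have := j.2; omega), ht]
    exact (hF3 j).2

end Pool.Agent.W691.BL.ENUM

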